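import Mathlib

set_option autoImplicit false

namespace Pool.Agent.Lib.MP_0549f6_nt

/-- the value of a list of decimal digits, lowest digit first -/
def val (l : List ℕ) : ℕ := Nat.ofDigits 10 l

theorem val_append (l l' : List ℕ) : val (l ++ l') = val l + 10 ^ l.length * val l' :=
  Nat.ofDigits_append

theorem val_cons (a : ℕ) (l : List ℕ) : val (a :: l) = a + 10 * val l := by
  simp [val, Nat.ofDigits_cons]

theorem val_lt {l : List ℕ} (h : ∀ a ∈ l, a < 10) : val l < 10 ^ l.length :=
  Nat.ofDigits_lt_base_pow_length (by norm_num) h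

theorem val_sandwich (a b : ℕ) (l : List ℕ) :
    val (a :: (l ++ [b])) = a + 10 * val l + 10 ^ (l.length + 1) * b := by
  rw [val_cons, val_append, val_cons]
  simp [val]
  ring

/-- Reversal never doubles a nonzero string. -/
theorem rev_double : ∀ n : ℕ, ∀ l : List ℕ, l.length = n → (∀ a ∈ l, a < 10) →
    val l.reverse = 2 * val l → val l = 0 := by
  intro n
  induction n using Nat.strong_induction_on with
  | _ n ih =>
    intro l hl hd h
    rcases l with _ | ⟨x, t⟩
    · simp [val]
    · rcases List.eq_nil_or_concat t with rfl | ⟨s, y, rfl⟩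
      · simp [val] at h ⊢
        omega
      · rw [List.concat_eq_append] at *
        have hr : (x :: (s ++ [y])).reverse = y :: (s.reverse ++ [x]) := by simp
        rw [hr, val_sandwich, val_sandwich, List.length_reverse] at h
        have hx : x < 10 := hd x (by simp)
        have hy : y < 10 := hd y (by simp)
        have hs : ∀ a ∈ s, a < 10 := fun a ha => hd a (by simp [ha])
        have h1 : val s < 10 ^ s.length := val_lt hs
        have h2 : val s.reverse < 10 ^ s.length := by
          have := val_lt (l := s.reverse) (fun a ha => hs a (List.mem_reverse.1 ha))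
          rwa [List.length_reverse] at this
        have hp : 10 ^ (s.length + 1) = 10 * 10 ^ s.length := by ring
        rw [hp] at h
        set T := 10 ^ s.length with hT
        have hxy : x = 0 ∧ y = 0 := by
          interval_cases x <;> interval_cases y <;> first | exact ⟨rfl, rfl⟩ | omega
        obtain ⟨rfl, rfl⟩ := hxy
        have h3 : val s.reverse = 2 * val s := by omega
        have hlen : s.length < n := by rw [← hl]; simp
        have h4 := ih s.length hlen s rfl hs h3
        rw [val_sandwich, h4]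
        simp

theorem val_compl {l : List ℕ} (h : ∀ a ∈ l, a < 10) :
    val (l.map (fun a => 9 - a)) + val l + 1 = 10 ^ l.length := by
  induction l with
  | nil => simp [val]
  | cons a l ih =>
    have ha : a < 10 := h a (by simp)
    have ih' := ih (fun b hb => h b (by simp [hb]))
    rw [List.map_cons, val_cons, val_cons, List.length_cons, pow_succ]
    omega

/-- `k * v k` for `2 ≤ k ≤ 9`. -/
def cc (k : ℕ) : ℕ :=
  if k = 2 then 4 else if k = 3 then 9 else if k = 4 then 16 else if k = 5 then 25 else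
  if k = 6 then 30 else if k = 7 then 49 else if k = 8 then 40 else 45

/-- the conditions on the first two and last two digits -/
def cond (k a0 a1 b0 b1 : ℕ) : Bool :=
  decide (2 ≤ k) && decide (1 ≤ a0) && decide (1 ≤ b0) &&
  decide ((a0 + 10 * a1 + cc k) % 100 = k * (b0 + 10 * b1) % 100) &&
  (decide (k * (a1 + 10 * a0) ≤ b1 + 10 * b0) ||
    (decide (k * (a1 + 10 * a0) = b1 + 10 * b0 + 1) && decide (k * (b0 + 10 * b1) < cc k))) &&
  decide (b1 + 10 * b0 < k * (a1 + 10 * a0 + 1))

theorem dec0 : ∀ k a0 a1 b0 b1 : Fin 10, cond k.val a0.val a1.val b0.val b1.val = true →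
    k.val = 2 ∧ a0.val = 4 ∧ b0.val = 9 := by
  decide +kernel

theorem dec {k a0 a1 b0 b1 : ℕ} (hk : k < 10) (hk2 : 2 ≤ k) (h1 : a0 < 10) (h2 : 1 ≤ a0)
    (h3 : a1 < 10) (h4 : b0 < 10) (h5 : 1 ≤ b0) (h6 : b1 < 10)
    (h7 : (a0 + 10 * a1 + cc k) % 100 = k * (b0 + 10 * b1) % 100)
    (h8 : k * (a1 + 10 * a0) ≤ b1 + 10 * b0 ∨
      (k * (a1 + 10 * a0) = b1 + 10 * b0 + 1 ∧ k * (b0 + 10 * b1) < cc k))
    (h9 : b1 + 10 * b0 < k * (a1 + 10 * a0 + 1)) : k = 2 ∧ a0 = 4 ∧ b0 = 9 := by
  apply dec0 ⟨k, hk⟩ ⟨a0, h1⟩ ⟨a1, h3⟩ ⟨b0, h4⟩ ⟨b1, h6⟩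
  simp only [cond, Bool.and_eq_true, Bool.or_eq_true, decide_eq_true_eq]
  exact ⟨⟨⟨⟨⟨hk2, h2⟩, h5⟩, h7⟩, h8⟩, h9⟩

end Pool.Agent.Lib.MP_0549f6_nt
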