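import Pool.Agent.Lib.MP_0549f6_nt.VDefs
import Pool.Agent.Lib.MP_0549f6_nt.Digits

set_option autoImplicit false

namespace Pool.Agent.Lib.MP_0549f6_nt

theorem v_small {k : ℕ} (h2 : 2 ≤ k) (h9 : k ≤ 9) : k * v k = cc k := by
  have e2 : v 2 = 2 := v_prime Nat.prime_two
  have e3 : v 3 = 3 := v_prime Nat.prime_three
  have e4 : v 4 = 4 := by
    have := v_pow Nat.prime_two (e := 2) le_rfl
    norm_num at this
    exact this
  have e5 : v 5 = 5 := v_prime Nat.prime_five
  have e6 : v 6 = 5 := by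
    have := v_mul (a := 2) (b := 3) (by norm_num)
    rw [e2, e3] at this
    exact this
  have e7 : v 7 = 7 := v_prime (by norm_num)
  have e8 : v 8 = 5 := by
    have := v_pow Nat.prime_two (e := 3) (by norm_num)
    norm_num at this
    exact this
  have e9 : v 9 = 5 := by
    have := v_pow Nat.prime_three (e := 2) le_rfl
    norm_num at this
    exact this
  interval_cases k <;> simp [cc, e2, e3, e4, e5, e6, e7, e8, e9]

theorem cc_le (k : ℕ) : cc k ≤ 49 := by
  unfold cc
  split_ifs <;> omega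

theorem split4 (l : List ℕ) (h : 4 ≤ l.length) :
    ∃ b0 b1 s a1 a0, l = b0 :: b1 :: (s ++ [a1, a0]) := by
  rcases l with _ | ⟨b0, _ | ⟨b1, t⟩⟩
  · simp at h
  · simp at h
  · rcases List.eq_nil_or_concat t with rfl | ⟨t', a0, rfl⟩
    · simp at h
    · rcases List.eq_nil_or_concat t' with rfl | ⟨s, a1, rfl⟩
      · simp at h
      · exact ⟨b0, b1, s, a1, a0, by simp⟩

theorem val4 (b0 b1 a1 a0 : ℕ) (s : List ℕ) : val (b0 :: b1 :: (s ++ [a1, a0])) =
    b0 + 10 * b1 + 100 * val s + 100 * 10 ^ s.length * (a1 + 10 * a0) := by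
  rw [val_cons, val_cons, val_append, val_cons, val_cons]
  simp [val]
  ring

/-- Prime `v`-palindromes `p ≥ 1000` are of the form `5·10^m - 1`, and then `5·10^m - 3` is
prime. -/
theorem char {p : ℕ} (hp : p.Prime) (h1000 : 1000 ≤ p) (h : IsVPalindrome p) :
    ∃ m, p = 5 * 10 ^ m - 1 ∧ (5 * 10 ^ m - 3).Prime := by
  obtain ⟨h10, hne, hv⟩ := h
  rw [v_prime hp] at hv
  obtain ⟨ds, hds⟩ : ∃ ds, ds = Nat.digits 10 p := ⟨_, rfl⟩
  obtain ⟨q, hq⟩ : ∃ q, q = rev p := ⟨_, rfl⟩
  rw [← hq] at hne hv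
  have hqv : q = val ds.reverse := by rw [hq, rev, ← hds]; rfl
  have hval : val ds = p := by rw [hds]; exact Nat.ofDigits_digits 10 p
  have hd : ∀ a ∈ ds, a < 10 := by
    intro a ha
    rw [hds] at ha
    exact Nat.digits_lt_base (by norm_num) ha
  have hlen : 10 ^ ds.length ≤ 10 * p := by
    rw [hds]
    exact Nat.base_pow_length_digits_le 10 p (by norm_num) (by omega)
  have hplt : p < 10 ^ ds.length := by
    rw [← hval]
    exact val_lt hd
  have hqlt : q < 10 ^ ds.length := by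
    have := val_lt (l := ds.reverse) (fun a ha => hd a (List.mem_reverse.1 ha))
    rwa [List.length_reverse, ← hqv] at this
  have hl4 : 4 ≤ ds.length := by
    by_contra hcon
    have h3 : 10 ^ ds.length ≤ 10 ^ 3 := Nat.pow_le_pow_right (by norm_num) (by omega)
    have h4 : (10 : ℕ) ^ 3 = 1000 := by norm_num
    omega
  obtain ⟨b0, b1, s, a1, a0, he⟩ := split4 ds hl4
  have hb0 : b0 < 10 := hd b0 (by simp [he])
  have hb1 : b1 < 10 := hd b1 (by simp [he])
  have ha0 : a0 < 10 := hd a0 (by simp [he])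
  have ha1 : a1 < 10 := hd a1 (by simp [he])
  have hs : ∀ a ∈ s, a < 10 := fun a ha => hd a (by simp [he, ha])
  have hI : val s < 10 ^ s.length := val_lt hs
  have hI' : val s.reverse < 10 ^ s.length := by
    have := val_lt (l := s.reverse) (fun a ha => hs a (List.mem_reverse.1 ha))
    rwa [List.length_reverse] at this
  have hp4 : p = b0 + 10 * b1 + 100 * val s + 100 * 10 ^ s.length * (a1 + 10 * a0) := by
    rw [← hval, he, val4]
  have hrev : ds.reverse = a0 :: a1 :: (s.reverse ++ [b1, b0]) := by rw [he]; simp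
  have hq4 : q = a0 + 10 * a1 + 100 * val s.reverse + 100 * 10 ^ s.length * (b1 + 10 * b0) := by
    rw [hqv, hrev, val4, List.length_reverse]
  have hlen4 : 10 ^ ds.length = 10000 * 10 ^ s.length := by
    rw [he]
    simp only [List.length_cons, List.length_append, List.length_nil]
    ring
  have hT : 1 ≤ 10 ^ s.length := Nat.one_le_pow _ _ (by norm_num)
  have ha0' : 1 ≤ a0 := by
    by_contra hcon
    have : a0 = 0 := by omega
    subst this
    rw [hlen4] at hlen
    have h5 : 100 * 10 ^ s.length * (a1 + 10 * 0) ≤ 900 * 10 ^ s.length := by nlinarith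
    omega
  have hb0' : 1 ≤ b0 := by
    by_contra hcon
    have : b0 = 0 := by omega
    subst this
    apply h10
    rw [hp4]
    exact ⟨b1 + 10 * val s + 10 * 10 ^ s.length * (a1 + 10 * a0), by ring⟩
  have hq10 : ¬ 10 ∣ q := by
    intro h5
    rw [hq4] at h5
    have h6 : 10 ∣ a0 := by
      have h7 : 10 ∣ 10 * (a1 + 10 * val s.reverse + 10 * 10 ^ s.length * (b1 + 10 * b0)) :=
        Dvd.intro _ rfl
      have h8 : a0 + 10 * a1 + 100 * val s.reverse + 100 * 10 ^ s.length * (b1 + 10 * b0) =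
          a0 + 10 * (a1 + 10 * val s.reverse + 10 * 10 ^ s.length * (b1 + 10 * b0)) := by ring
      rw [h8] at h5
      exact (Nat.dvd_add_left h7).1 h5
    have := Nat.le_of_dvd (by omega) h6
    omega
  have hqp : ¬ q.Prime := by
    intro h5
    rw [v_prime h5] at hv
    exact hne hv
  obtain ⟨k, r, hk2, hk9, hr, hqr, hvq⟩ := structure_q (q := q) (M := p) h1000 (by omega)
    (by omega) hq10 hqp
  have hkp : k * p = q + cc k := by
    rw [← v_small hk2 hk9, hv, hvq, hqr]
    ring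
  have hcc := cc_le k
  -- the digit conditions
  obtain ⟨T, hTe⟩ : ∃ T, T = 10 ^ s.length := ⟨_, rfl⟩
  rw [← hTe] at hp4 hq4 hI hI' hlen4 hT
  obtain ⟨I, hIe⟩ : ∃ I, I = val s := ⟨_, rfl⟩
  obtain ⟨I', hIe'⟩ : ∃ I', I' = val s.reverse := ⟨_, rfl⟩
  rw [← hIe] at hp4 hI
  rw [← hIe'] at hq4 hI'
  have key : k * (b0 + 10 * b1 + 100 * I) + k * (a1 + 10 * a0) * (100 * T) =
      (a0 + 10 * a1 + 100 * I') + (b1 + 10 * b0) * (100 * T) + cc k := by
    calc k * (b0 + 10 * b1 + 100 * I) + k * (a1 + 10 * a0) * (100 * T) =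
        k * (b0 + 10 * b1 + 100 * I + 100 * T * (a1 + 10 * a0)) := by ring
      _ = k * p := by rw [← hp4]
      _ = q + cc k := hkp
      _ = (a0 + 10 * a1 + 100 * I') + (b1 + 10 * b0) * (100 * T) + cc k := by rw [hq4]; ring
  have h7 : (a0 + 10 * a1 + cc k) % 100 = k * (b0 + 10 * b1) % 100 := by
    have e1 : k * (b0 + 10 * b1 + 100 * I) + k * (a1 + 10 * a0) * (100 * T) =
        k * (b0 + 10 * b1) + 100 * (k * I + k * (a1 + 10 * a0) * T) := by ring
    have e2 : (a0 + 10 * a1 + 100 * I') + (b1 + 10 * b0) * (100 * T) + cc k =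
        (a0 + 10 * a1 + cc k) + 100 * (I' + (b1 + 10 * b0) * T) := by ring
    rw [e1, e2] at key
    omega
  obtain ⟨t, ht⟩ : ∃ t, t = b0 + 10 * b1 + 100 * I := ⟨_, rfl⟩
  obtain ⟨t', ht'⟩ : ∃ t', t' = a0 + 10 * a1 + 100 * I' := ⟨_, rfl⟩
  obtain ⟨M, hM⟩ : ∃ M, M = 100 * T := ⟨_, rfl⟩
  obtain ⟨X, hX⟩ : ∃ X, X = a1 + 10 * a0 := ⟨_, rfl⟩
  obtain ⟨Z, hZ⟩ : ∃ Z, Z = b1 + 10 * b0 := ⟨_, rfl⟩
  rw [← ht, ← ht', ← hM, ← hX, ← hZ] at key
  have htM : t < M := by omega
  have htM' : t' < M := by omega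
  have hM100 : 100 ≤ M := by omega
  have h9 : Z < k * (X + 1) := by
    by_contra hcon
    have h5 : k * (X + 1) * M ≤ Z * M := Nat.mul_le_mul_right _ (by omega)
    have h6 : k * t < k * M := Nat.mul_lt_mul_of_pos_left htM (by omega)
    have h8 : k * (X + 1) * M = k * X * M + k * M := by ring
    omega
  have h8 : k * X ≤ Z ∨ (k * X = Z + 1 ∧ k * (b0 + 10 * b1) < cc k) := by
    rcases Nat.lt_or_ge Z (k * X) with h5 | h5
    · right
      have h6 : k * X ≤ Z + 1 := by
        by_contra hcon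
        have h5 : (Z + 2) * M ≤ k * X * M := Nat.mul_le_mul_right _ (by omega)
        have h6 : (Z + 2) * M = Z * M + 2 * M := by ring
        omega
      have h7 : k * X = Z + 1 := by omega
      refine ⟨h7, ?_⟩
      rw [h7] at key
      have h8 : (Z + 1) * M = Z * M + M := by ring
      have h9 : k * (b0 + 10 * b1) ≤ k * t := Nat.mul_le_mul_left _ (by omega)
      omega
    · left
      exact h5
  rw [hX, hZ] at h8 h9
  obtain ⟨rfl, rfl, rfl⟩ := dec (by omega) hk2 ha0 ha0' ha1 hb0 hb0' hb1 h7 h8 h9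
  -- the inner digits
  obtain ⟨mid, hmid⟩ : ∃ mid, mid = b1 :: (s ++ [a1]) := ⟨_, rfl⟩
  have hds2 : ds = 9 :: (mid ++ [4]) := by rw [he, hmid]; simp
  have hds3 : ds.reverse = 4 :: (mid.reverse ++ [9]) := by rw [hds2]; simp
  have hp5 : p = 9 + 10 * val mid + 10 ^ (mid.length + 1) * 4 := by
    rw [← hval, hds2, val_sandwich]
  have hq5 : q = 4 + 10 * val mid.reverse + 10 ^ (mid.length + 1) * 9 := by
    rw [hqv, hds3, val_sandwich, List.length_reverse]
  have hmd : ∀ a ∈ mid, a < 10 := fun a ha => hd a (by rw [hds2]; simp [ha])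
  have hc1 := val_compl hmd
  have hc2 := val_compl (l := mid.reverse) (fun a ha => hmd a (List.mem_reverse.1 ha))
  rw [List.length_reverse, List.map_reverse] at hc2
  have hcc2 : cc 2 = 4 := by simp [cc]
  rw [hcc2] at hkp
  have hpow : 10 ^ (mid.length + 1) = 10 * 10 ^ mid.length := by ring
  have hE : val (mid.map (fun a => 9 - a)) = 0 := by
    apply rev_double _ _ rfl
    · intro a ha
      rw [List.mem_map] at ha
      obtain ⟨b, _, rfl⟩ := ha
      omega
    · rw [hpow] at hp5 hq5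
      omega
  have hp6 : p = 5 * 10 ^ (mid.length + 1) - 1 := by
    rw [hpow] at hp5 ⊢
    omega
  refine ⟨mid.length + 1, hp6, ?_⟩
  have hr2 : r = 5 * 10 ^ (mid.length + 1) - 3 := by
    have h5 : v 2 = 2 := v_prime Nat.prime_two
    rw [h5] at hvq
    omega
  rw [← hr2]
  exact hr

end Pool.Agent.Lib.MP_0549f6_nt
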