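import Mathlib

/-!
# Congruence classes of `m` for which `5·10^m - 1` or `5·10^m - 3` is composite
-/

set_option autoImplicit false

namespace Pool.Agent.Lib.MP_0549f6_nt

/-- The classes `(p, d, r, c)`: `10 ^ d = 1` and `5 * 10 ^ r = c` modulo `p`. -/
def cls : List (ℕ × ℕ × ℕ × ℕ) :=
  [(7,6,1,1), (7,6,2,3), (17,16,4,3), (17,16,9,1), (19,18,3,3), (19,18,16,1), (23,22,5,3),
   (23,22,7,1), (29,28,9,3), (29,28,10,1), (31,15,5,1), (43,21,6,3), (61,60,28,3), (61,60,46,1),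
   (67,33,18,3), (71,35,2,3), (71,35,28,1), (89,44,35,1), (113,112,18,3), (113,112,51,1),
   (127,42,5,1), (181,180,132,1), (199,99,96,1), (337,336,303,1), (421,140,14,3), (881,440,311,1),
   (991,495,271,1), (1009,252,184,3), (3361,1680,669,1), (5281,2640,2280,1)]

theorem cls_ok : ∀ t ∈ cls, 10 ^ t.2.1 % t.1 = 1 ∧ 5 * 10 ^ t.2.2.1 % t.1 = t.2.2.2 ∧
    (t.2.2.2 = 1 ∨ t.2.2.2 = 3) ∧ 1 < t.1 ∧ t.1 < 10 ^ 4 ∧ t.2.1 ∣ 55440 := by
  decide +kernel

/-- `i` is in one of the classes. -/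
def cov (i : ℕ) : Bool :=
  i % 6 == 1 || i % 6 == 2 || i % 16 == 4 || i % 16 == 9 || i % 18 == 3 || i % 18 == 16 ||
  i % 22 == 5 || i % 22 == 7 || i % 28 == 9 || i % 28 == 10 || i % 15 == 5 || i % 21 == 6 ||
  i % 60 == 28 || i % 60 == 46 || i % 33 == 18 || i % 35 == 2 || i % 35 == 28 || i % 44 == 35 ||
  i % 112 == 18 || i % 112 == 51 || i % 42 == 5 || i % 180 == 132 || i % 99 == 96 ||
  i % 336 == 303 || i % 140 == 14 || i % 440 == 311 || i % 495 == 271 || i % 252 == 184 ||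
  i % 1680 == 669 || i % 2640 == 2280

theorem cov_eq (i : ℕ) : cov i = cls.any (fun t => i % t.2.1 == t.2.2.1) := by
  simp [cov, cls, Bool.or_assoc]

/-- The number of the `i < 55440` in `[lo, lo + 2 ^ k)` in none of the classes. -/
def cnt : ℕ → ℕ → ℕ
  | 0, lo => if lo < 55440 then (if cov lo then 0 else 1) else 0
  | k + 1, lo => cnt k lo + cnt k (lo + 2 ^ k)

theorem cnt_eval : cnt 16 0 = 14400 := by decide +kernel

end Pool.Agent.Lib.MP_0549f6_nt
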