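import Pool.Agent.Lib.MP_0549f6_nt.FineData

set_option autoImplicit false

namespace Pool.Agent.Lib.MP_0549f6_nt.Fine

theorem blk0 : cntW 8 0 =
    43121563900223956291362039983062041600 := by
  decide +kernel

theorem blk256 : cntW 8 256 =
    43141259955732613302074199797224396800 := by
  decide +kernel

theorem blk512 : cntW 8 512 =
    38624190404111576926976400503938636800 := by
  decide +kernel

theorem blk768 : cntW 8 768 =
    44336139007965996331672194871378796544 := by
  decide +kernel

theorem blk1024 : cntW 8 1024 =
    43462328907188977619853744468389393280 := by
  decide +kernel

end Pool.Agent.Lib.MP_0549f6_nt.Fine
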