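import Pool.Agent.Lib.MP_0549f6_nt.FineData

set_option autoImplicit false

namespace Pool.Agent.Lib.MP_0549f6_nt.Fine

theorem blk1280 : cntW 8 1280 =
    42135189127674725416336554354128363520 := by
  decide +kernel

theorem blk1536 : cntW 8 1536 =
    42465689162902767404706666339565555200 := by
  decide +kernel

theorem blk1792 : cntW 8 1792 =
    43377254838889720210669859476221634560 := by
  decide +kernel

theorem blk2048 : cntW 8 2048 =
    42939216268185852095647575171098856960 := by
  decide +kernel

theorem blk2304 : cntW 8 2304 =
    41160125411389087971455765808324541440 := by
  decide +kernel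

end Pool.Agent.Lib.MP_0549f6_nt.Fine
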