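import Pool.Agent.Lib.MP_0549f6_nt.FineData

set_option autoImplicit false

namespace Pool.Agent.Lib.MP_0549f6_nt.Fine

theorem blk2560 : cntW 8 2560 =
    43225510294076654915718933252785662656 := by
  decide +kernel

theorem blk2816 : cntW 8 2816 =
    42737511875650194636420051706612922880 := by
  decide +kernel

theorem blk3072 : cntW 8 3072 =
    42023212544022374232378033508227640320 := by
  decide +kernel

theorem blk3328 : cntW 8 3328 =
    43474731248769028732490502135951129600 := by
  decide +kernel

theorem blk3584 : cntW 8 3584 =
    42714538600035742230816105057162633600 := by
  decide +kernel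

end Pool.Agent.Lib.MP_0549f6_nt.Fine
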