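import Pool.Agent.Lib.MP_0549f6_nt.FineData

set_option autoImplicit false

namespace Pool.Agent.Lib.MP_0549f6_nt.Fine

theorem blk3840 : cntW 8 3840 =
    41209904822990188833519863800925460480 := by
  decide +kernel

theorem blk4096 : cntW 8 4096 =
    42244152196092858963615231750137114880 := by
  decide +kernel

theorem blk4352 : cntW 8 4352 =
    43384411997356665452824141434821433600 := by
  decide +kernel

theorem blk4608 : cntW 8 4608 =
    42380738712319187880522970060522141440 := by
  decide +kernel

theorem blk4864 : cntW 8 4864 =
    29545239042859336726410874488873179520 := by
  decide +kernel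

end Pool.Agent.Lib.MP_0549f6_nt.Fine
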