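import Pool.Agent.Lib.MP_0549f6_nt.Main

/-!
# A finer sieve: classes of `m` modulo `5040 l` for the primes `l` from `11` to `101`
-/

set_option autoImplicit false

namespace Pool.Agent.Lib.MP_0549f6_nt.Fine

/-- The classes `(d, r, p, c)` with `d` dividing `5040`: if `m = r` modulo `d`, then `p` divides
`5 * 10 ^ m - c`. -/
def base : List (ℕ × ℕ × ℕ × ℕ) :=
  [(6, 1, 7, 1), (6, 2, 7, 3), (16, 4, 17, 3), (16, 9, 17, 1), (18, 3, 19, 3), (18, 16, 19, 1),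
     (28, 9, 29, 3), (28, 10, 29, 1), (15, 5, 31, 1), (21, 6, 43, 3), (60, 28, 61, 3), (60, 46,
     61, 1), (35, 2, 71, 3), (35, 28, 71, 1), (112, 18, 113, 3), (112, 51, 113, 1), (42, 5, 127,
     1), (180, 132, 181, 1), (336, 303, 337, 1), (140, 14, 421, 3), (252, 184, 1009, 3), (1680,
     669, 3361, 1)]

/-- For every `l` the classes `(d, a, b, p, r, c)`, `d` dividing `5040`: if `m = a` modulo `d` and
`m = b` modulo `l`, then `m = r` modulo `d l` and `p` divides `5 * 10 ^ m - c`. -/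
def data : List (ℕ × List (ℕ × ℕ × ℕ × ℕ × ℕ × ℕ)) :=
  [(11, [(2, 1, 5, 23, 5, 3), (2, 1, 7, 23, 7, 1), (3, 0, 7, 67, 18, 3), (4, 3, 2, 89, 35, 1), (9,
     6, 8, 199, 96, 1), (40, 31, 3, 881, 311, 1), (45, 1, 7, 991, 271, 1), (240, 120, 3, 5281,
     2280, 1)]),
   (13, [(10, 8, 0, 131, 78, 3), (10, 2, 4, 131, 82, 1), (24, 17, 4, 313, 17, 3), (24, 9, 0, 313,
     273, 1), (35, 29, 11, 911, 414, 1), (72, 35, 1, 937, 755, 3), (90, 23, 12, 1171, 1013, 3),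
     (80, 38, 3, 2081, 198, 1), (210, 57, 0, 2731, 897, 3), (12, 10, 9, 3121, 22, 1), (105, 104,
     2, 8191, 314, 1)]),
   (17, [(9, 2, 7, 307, 92, 3), (12, 0, 11, 409, 96, 1), (12, 11, 7, 409, 143, 3), (56, 2, 13,
     953, 506, 3), (56, 13, 7, 953, 517, 1), (40, 2, 3, 1361, 122, 1), (84, 58, 3, 1429, 394, 3),
     (84, 12, 16, 1429, 1104, 1), (90, 63, 3, 1531, 513, 3), (90, 72, 10, 1531, 792, 1), (126,
     41, 13, 2143, 1679, 1), (28, 18, 4, 2381, 242, 1), (12, 6, 1, 3061, 18, 1), (21, 3, 3, 4999,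
     3, 1), (180, 84, 14, 6121, 1884, 3)]),
   (19, [(5, 4, 10, 191, 29, 3), (5, 0, 12, 191, 50, 1), (12, 10, 3, 229, 22, 3), (8, 5, 10, 457,
     29, 1), (30, 4, 2, 571, 154, 1), (30, 17, 11, 571, 467, 3), (20, 10, 11, 761, 30, 1), (20,
     15, 10, 1901, 295, 3), (28, 2, 12, 2129, 506, 1), (120, 12, 15, 4561, 1212, 1)]),
   (23, [(2, 1, 1, 47, 1, 3), (2, 1, 6, 47, 29, 1), (2, 1, 9, 139, 9, 3), (20, 7, 21, 461, 67,
     3), (20, 8, 7, 461, 168, 1), (10, 8, 8, 691, 8, 1), (60, 58, 12, 1381, 58, 1), (60, 6, 13,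
     1381, 726, 3), (24, 17, 16, 1657, 545, 1), (140, 139, 10, 3221, 2379, 3), (140, 54, 6, 3221,
     3134, 1), (144, 123, 15, 3313, 843, 1)]),
   (29, [(2, 0, 24, 59, 24, 1), (2, 0, 27, 59, 56, 3), (8, 4, 2, 233, 60, 3), (8, 7, 25, 233,
     199, 1), (4, 0, 14, 349, 72, 3), (16, 14, 13, 929, 158, 1), (36, 35, 22, 2089, 863, 1),
     (144, 5, 16, 4177, 2597, 3), (70, 11, 3, 6091, 641, 3), (70, 46, 1, 6091, 1306, 1), (120,
     63, 0, 6961, 783, 3)]),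
   (31, [(5, 1, 30, 311, 61, 3), (5, 3, 21, 311, 83, 1), (42, 30, 12, 1303, 198, 3), (42, 21, 19,
     1303, 1197, 1), (60, 6, 25, 1861, 366, 3), (60, 0, 22, 1861, 1200, 1), (63, 22, 24, 3907,
     148, 3), (28, 20, 17, 8681, 48, 1), (10, 8, 27, 11161, 58, 1)]),
   (37, [(4, 3, 9, 149, 83, 3), (4, 0, 5, 149, 116, 1), (6, 5, 17, 223, 17, 1), (6, 4, 6, 223,
     154, 3), (16, 3, 20, 593, 131, 1), (16, 14, 21, 593, 206, 3), (20, 17, 16, 1481, 497, 1),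
     (48, 23, 16, 1777, 1607, 1), (60, 42, 12, 2221, 1122, 1), (60, 6, 31, 2221, 1326, 3), (60,
     22, 15, 4441, 1162, 1), (72, 11, 34, 7993, 515, 3)]),
   (41, [(6, 4, 7, 739, 130, 1), (20, 13, 25, 821, 353, 3), (20, 6, 32, 821, 606, 1), (56, 44,
     16, 2297, 1164, 3), (24, 9, 12, 2953, 873, 1)]),
   (43, [(1, 0, 4, 173, 4, 3), (5, 4, 8, 431, 94, 3), (5, 4, 15, 431, 144, 1), (24, 17, 17, 1033,
     17, 3), (30, 6, 17, 1291, 576, 1), (36, 18, 8, 1549, 954, 1), (36, 24, 9, 1549, 1428, 3),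
     (10, 7, 34, 1721, 77, 1), (70, 0, 12, 3011, 700, 3), (70, 16, 21, 3011, 2816, 1), (48, 42,
     40, 4129, 1674, 3), (112, 42, 42, 4817, 42, 3), (112, 59, 15, 4817, 4315, 1), (84, 78, 42,
     14449, 1590, 1)]),
   (47, [(3, 1, 9, 283, 103, 3), (14, 8, 7, 659, 148, 1), (14, 2, 38, 659, 226, 3), (20, 7, 3,
     941, 567, 3), (20, 16, 18, 941, 676, 1), (12, 9, 33, 1129, 33, 3), (12, 10, 36, 1129, 130,
     1), (56, 33, 29, 2633, 593, 1), (56, 14, 5, 2633, 2590, 3), (40, 9, 23, 3761, 1809, 1), (45,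
     18, 42, 4231, 1593, 1), (63, 56, 40, 5923, 2954, 3), (28, 8, 44, 6581, 232, 1), (28, 25, 38,
     6581, 837, 3), (105, 12, 8, 9871, 2217, 1)]),
   (53, [(14, 11, 30, 743, 613, 3), (14, 1, 37, 743, 673, 1), (7, 4, 11, 2969, 11, 1), (30, 29,
     43, 6361, 149, 1), (63, 41, 51, 6679, 104, 1), (40, 31, 2, 12721, 1751, 3)]),
   (59, [(12, 10, 18, 709, 490, 1), (12, 6, 41, 709, 690, 3), (18, 15, 37, 1063, 627, 1), (18,
     10, 9, 1063, 658, 3), (20, 7, 7, 1181, 7, 3), (20, 14, 7, 1181, 774, 1), (48, 23, 50, 2833,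
     935, 1), (40, 23, 14, 4721, 663, 1)]),
   (61, [(6, 0, 54, 367, 54, 3), (6, 3, 16, 367, 321, 1), (16, 0, 56, 977, 544, 3), (16, 5, 19,
     977, 629, 1), (28, 3, 44, 1709, 227, 3), (28, 6, 17, 1709, 566, 1), (5, 3, 49, 1831, 293,
     1), (5, 1, 32, 2441, 276, 1), (35, 23, 58, 4271, 58, 3), (35, 20, 8, 4271, 1350, 1), (60,
     52, 13, 7321, 2392, 3)]),
   (67, [(4, 0, 41, 269, 108, 1), (4, 1, 63, 269, 197, 3), (3, 0, 34, 1609, 168, 1), (14, 11, 41,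
     1877, 711, 3), (10, 3, 38, 2011, 373, 3), (4, 0, 20, 4021, 20, 3), (70, 26, 7, 4691, 1146,
     3), (70, 32, 18, 4691, 2832, 1), (63, 13, 36, 8443, 706, 3)]),
   (71, [(4, 0, 62, 569, 204, 1), (9, 4, 9, 1279, 364, 1), (60, 30, 61, 4261, 1410, 1), (24, 3,
     61, 5113, 771, 3), (40, 8, 28, 17041, 1448, 1)]),
   (73, [(2, 0, 62, 293, 62, 3), (3, 2, 3, 439, 149, 1), (8, 3, 16, 1753, 235, 1), (21, 16, 49,
     3067, 268, 3), (12, 10, 21, 8761, 94, 3), (63, 45, 35, 9199, 108, 1)]),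
   (79, [(7, 4, 50, 2213, 445, 3), (30, 16, 54, 2371, 2266, 1), (40, 23, 10, 12641, 2143, 1)]),
   (83, [(2, 1, 63, 167, 63, 3), (2, 1, 2, 167, 85, 1), (6, 5, 40, 499, 455, 3)]),
   (89, [(2, 0, 72, 179, 72, 1), (2, 0, 35, 179, 124, 3), (12, 6, 33, 1069, 834, 3), (24, 21, 21,
     2137, 21, 1), (15, 11, 40, 2671, 1286, 1), (40, 3, 48, 7121, 3163, 1), (30, 29, 61, 8011,
     239, 3), (30, 12, 17, 8011, 462, 1)]),
   (97, [(4, 0, 7, 389, 104, 1), (4, 3, 41, 389, 235, 3), (10, 2, 22, 971, 22, 3), (10, 4, 5,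
     971, 684, 1), (16, 8, 66, 1553, 648, 3), (16, 7, 88, 1553, 1543, 1), (3, 2, 64, 1747, 161,
     3), (20, 4, 29, 3881, 1484, 1), (16, 3, 61, 4657, 643, 1), (7, 2, 33, 6791, 324, 1)]),
   (101, [(2, 0, 11, 607, 112, 3), (21, 1, 34, 4243, 337, 3), (20, 17, 25, 8081, 1237, 1)])]

theorem base_ok : ∀ t ∈ base, 10 ^ t.1 % t.2.2.1 = 1 ∧ 5 * 10 ^ t.2.1 % t.2.2.1 = t.2.2.2 ∧
    (t.2.2.2 = 1 ∨ t.2.2.2 = 3) ∧ 1 < t.2.2.1 ∧ t.2.2.1 < 10 ^ 5 ∧ t.1 ∣ 5040 := by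
  decide +kernel

theorem data_ok : ∀ e ∈ data, e.1.Coprime 5040 ∧ 0 < e.1 ∧ ∀ t ∈ e.2,
    10 ^ (t.1 * e.1) % t.2.2.2.1 = 1 ∧ 5 * 10 ^ t.2.2.2.2.1 % t.2.2.2.1 = t.2.2.2.2.2 ∧
    (t.2.2.2.2.2 = 1 ∨ t.2.2.2.2.2 = 3) ∧ 1 < t.2.2.2.1 ∧ t.2.2.2.1 < 10 ^ 5 ∧ t.1 ∣ 5040 ∧
    t.2.2.2.2.1 < t.1 * e.1 ∧ t.2.2.2.2.1 % t.1 = t.2.1 ∧ t.2.2.2.2.1 % e.1 = t.2.2.1 := by
  decide +kernel

/-- `i` is in no class of `base`. -/
def free (i : ℕ) : Bool := base.all (fun t => !(i % t.1 == t.2.1))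

/-- The residues modulo `l` which are killed for `m = i` modulo `5040`. -/
def K (e : ℕ × List (ℕ × ℕ × ℕ × ℕ × ℕ × ℕ)) (i : ℕ) : List ℕ :=
  (e.2.filterMap (fun t => if i % t.1 == t.2.1 then some t.2.2.1 else none)).dedup

/-- The weight of the class `i`. -/
def wt (i : ℕ) : ℕ := (data.map (fun e => e.1 - (K e i).length)).prod

/-- The sum of the weights of the free `i < 5040` in `[lo, lo + 2 ^ k)`. -/
def cntW : ℕ → ℕ → ℕ
  | 0, lo => if lo < 5040 then (if free lo then wt lo else 0) else 0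
  | k + 1, lo => cntW k lo + cntW k (lo + 2 ^ k)

/-- The product of the `l`. -/
def PP : ℕ := (data.map Prod.fst).prod

theorem cntW_succ (k lo : ℕ) : cntW (k + 1) lo = cntW k lo + cntW k (lo + 2 ^ k) := rfl

end Pool.Agent.Lib.MP_0549f6_nt.Fine
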