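import Mathlib

set_option autoImplicit false

namespace Pool.Agent.Lib.MP_0549f6_nt.Fine

open Finset

/-- Splitting a sum over `range (P * l)`. -/
theorem sum_split (P l : ℕ) (F : ℕ → ℕ) :
    ∑ m ∈ range (P * l), F m = ∑ m' ∈ range P, ∑ s ∈ range l, F (P * s + m') := by
  induction l with
  | zero => simp
  | succ l ih =>
    rw [Nat.mul_succ, Finset.sum_range_add, ih, ← Finset.sum_add_distrib]
    apply Finset.sum_congr rfl
    intro m' _
    rw [Finset.sum_range_succ]

/-- The number of `s < l` for which `P s + m'` avoids the set `K` modulo `l`. -/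
theorem inner_count {P l : ℕ} (hl : 0 < l) (hcop : l.Coprime P) (m' : ℕ) (K : Finset ℕ)
    (hK : K ⊆ range l) :
    ((range l).filter (fun s => (P * s + m') % l ∉ K)).card = l - K.card := by
  have hinj : Set.InjOn (fun s => (P * s + m') % l) (range l : Finset ℕ) := by
    intro s hs t ht h
    rw [mem_coe, mem_range] at hs ht
    have h1 : P * s + m' ≡ P * t + m' [MOD l] := h
    have h2 : P * s ≡ P * t [MOD l] := Nat.ModEq.add_right_cancel' m' h1
    have h3 : s ≡ t [MOD l] := Nat.ModEq.cancel_left_of_coprime hcop h2
    rw [Nat.ModEq, Nat.mod_eq_of_lt hs, Nat.mod_eq_of_lt ht] at h3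
    exact h3
  have himg : (range l).image (fun s => (P * s + m') % l) = range l := by
    apply Finset.eq_of_subset_of_card_le
    · intro x hx
      rw [mem_image] at hx
      obtain ⟨s, _, rfl⟩ := hx
      exact mem_range.2 (Nat.mod_lt _ hl)
    · rw [Finset.card_image_of_injOn hinj]
  have h1 : ((range l).filter (fun s => (P * s + m') % l ∉ K)).card =
      ((range l) \ K).card := by
    rw [← Finset.card_image_of_injOn (s := (range l).filter (fun s => (P * s + m') % l ∉ K))
      (f := fun s => (P * s + m') % l)]
    · congr 1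
      ext x
      rw [mem_image, mem_sdiff]
      constructor
      · rintro ⟨s, hs, rfl⟩
        rw [mem_filter] at hs
        exact ⟨mem_range.2 (Nat.mod_lt _ hl), hs.2⟩
      · rintro ⟨hx, hxK⟩
        rw [← himg, mem_image] at hx
        obtain ⟨s, hs, rfl⟩ := hx
        exact ⟨s, mem_filter.2 ⟨hs, hxK⟩, rfl⟩
    · intro s hs t ht h
      rw [mem_coe, mem_filter] at hs ht
      exact hinj (mem_coe.2 hs.1) (mem_coe.2 ht.1) h
  rw [h1, Finset.card_sdiff_of_subset hK, card_range]

/-- The weighted count over a full period. `kk e i` is the set killed modulo `e` for the class `i`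
modulo `Q`. -/
theorem wsum {ι : Type} (Q : ℕ) (mod : ι → ℕ) (kk : ι → ℕ → Finset ℕ) :
    ∀ (L : List ι), (∀ e ∈ L, 0 < mod e ∧ (mod e).Coprime Q ∧ ∀ i, kk e i ⊆ range (mod e)) →
    (L.map mod).Pairwise Nat.Coprime → ∀ w : ℕ → ℕ,
    ∑ m ∈ range (Q * (L.map mod).prod),
      (if ∀ e ∈ L, m % mod e ∉ kk e (m % Q) then w (m % Q) else 0) =
    ∑ i ∈ range Q, w i * (L.map (fun e => mod e - (kk e i).card)).prod := by
  intro L
  induction L with
  | nil =>
    intro _ _ w
    simp only [List.map_nil, List.prod_nil, mul_one]
    apply Finset.sum_congr rfl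
    intro i hi
    rw [mem_range] at hi
    simp [Nat.mod_eq_of_lt hi]
  | cons e L ih =>
    intro hL hP w
    rw [List.map_cons, List.pairwise_cons] at hP
    obtain ⟨hP1, hP2⟩ := hP
    obtain ⟨he0, heQ, heK⟩ := hL e (by simp)
    have hL' : ∀ e ∈ L, 0 < mod e ∧ (mod e).Coprime Q ∧ ∀ i, kk e i ⊆ range (mod e) :=
      fun e' he' => hL e' (List.mem_cons_of_mem _ he')
    set P := Q * (L.map mod).prod with hPdef
    have hcop : (mod e).Coprime P := by
      apply Nat.Coprime.mul_right heQ
      exact Nat.coprime_list_prod_right_iff.2 hP1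
    have e1 : Q * ((e :: L).map mod).prod = P * mod e := by
      rw [List.map_cons, List.prod_cons, hPdef]
      ring
    rw [e1, sum_split]
    have e2 : ∀ m' ∈ range P, (∑ s ∈ range (mod e),
        (if ∀ e' ∈ e :: L, (P * s + m') % mod e' ∉ kk e' ((P * s + m') % Q) then
          w ((P * s + m') % Q) else 0)) =
        (if ∀ e' ∈ L, m' % mod e' ∉ kk e' (m' % Q) then
          w (m' % Q) * (mod e - (kk e (m' % Q)).card) else 0) := by
      intro m' _
      have hQm : ∀ s, (P * s + m') % Q = m' % Q := by
        intro s
        rw [hPdef, mul_assoc, Nat.mul_add_mod]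
      have hem : ∀ e' ∈ L, ∀ s, (P * s + m') % mod e' = m' % mod e' := by
        intro e' he' s
        have hd : mod e' ∣ P := by
          rw [hPdef]
          exact Dvd.dvd.mul_left (List.dvd_prod (List.mem_map_of_mem he')) _
        obtain ⟨c, hc⟩ := hd
        rw [hc, mul_assoc, Nat.mul_add_mod]
      by_cases hg : ∀ e' ∈ L, m' % mod e' ∉ kk e' (m' % Q)
      · rw [if_pos hg]
        have e3 : ∀ s ∈ range (mod e),
            (if ∀ e' ∈ e :: L, (P * s + m') % mod e' ∉ kk e' ((P * s + m') % Q) then
              w ((P * s + m') % Q) else 0) =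
            (if (P * s + m') % mod e ∉ kk e (m' % Q) then w (m' % Q) else 0) := by
          intro s _
          rw [hQm]
          congr 1
          rw [List.forall_mem_cons, eq_iff_iff]
          constructor
          · exact fun h => h.1
          · exact fun h => ⟨h, fun e' he' => by rw [hem e' he']; exact hg e' he'⟩
        rw [Finset.sum_congr rfl e3, ← Finset.sum_filter, Finset.sum_const, smul_eq_mul,
          inner_count he0 hcop m' _ (heK _), mul_comm]
      · rw [if_neg hg]
        apply Finset.sum_eq_zero
        intro s _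
        rw [if_neg]
        intro h
        apply hg
        intro e' he'
        have := h e' (List.mem_cons_of_mem _ he')
        rwa [hQm, hem e' he'] at this
    rw [Finset.sum_congr rfl e2]
    rw [ih hL' hP2 (fun i => w i * (mod e - (kk e i).card))]
    apply Finset.sum_congr rfl
    intro i _
    rw [List.map_cons, List.prod_cons]
    ring

end Pool.Agent.Lib.MP_0549f6_nt.Fine
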