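import Pool.Agent.Lib.MP_0549f6_nt.FineTot
import Pool.Agent.Lib.MP_0549f6_nt.FineSum

set_option autoImplicit false

namespace Pool.Agent.Lib.MP_0549f6_nt.Fine

open Finset

theorem not_both {p d r c m : ℕ} (hp : 1 < p) (hp5 : p < 10 ^ 5) (hc : c = 1 ∨ c = 3)
    (hd : 10 ^ d % p = 1) (hr : 5 * 10 ^ r % p = c) (hm : m % d = r) (h7 : 7 ≤ m) : ¬ Both m := by
  intro h
  have hpow : 10 ^ 7 ≤ 10 ^ m := Nat.pow_le_pow_right (by norm_num) h7
  have h8 : p + c < 5 * 10 ^ m := by
    have h9 : (10 : ℕ) ^ 5 = 100000 := by norm_num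
    have h10 : (10 : ℕ) ^ 7 = 10000000 := by norm_num
    rcases hc with hc | hc <;> omega
  have h11 := kill hp hd hr hm h8
  rcases hc with hc | hc
  · rw [hc] at h11
    exact h11 h.1
  · rw [hc] at h11
    exact h11 h.2

theorem ge_seven {m : ℕ} (h : Both m) : 7 ≤ m := by
  by_contra hc
  exact small (by omega) h

theorem free_of_both {m : ℕ} (h : Both m) : free (m % 5040) = true := by
  unfold free
  rw [List.all_eq_true]
  intro t ht
  obtain ⟨h1, h2, h3, h4, h5, h6⟩ := base_ok t ht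
  by_contra hc
  rw [Bool.not_eq_true, Bool.not_eq_false', beq_iff_eq, Nat.mod_mod_of_dvd _ h6] at hc
  exact not_both h4 h5 h3 h1 h2 hc (ge_seven h) h

theorem mem_K {e : ℕ × List (ℕ × ℕ × ℕ × ℕ × ℕ × ℕ)} {i x : ℕ} (h : x ∈ K e i) :
    ∃ t ∈ e.2, i % t.1 = t.2.1 ∧ x = t.2.2.1 := by
  unfold K at h
  rw [List.mem_dedup, List.mem_filterMap] at h
  obtain ⟨t, ht, h⟩ := h
  by_cases hc : i % t.1 = t.2.1
  · rw [if_pos (by simpa using hc), Option.some.injEq] at h
    exact ⟨t, ht, hc, h.symm⟩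
  · rw [if_neg (by simpa using hc)] at h
    exact absurd h (by simp)

theorem notMem_K {e : ℕ × List (ℕ × ℕ × ℕ × ℕ × ℕ × ℕ)} (he : e ∈ data) {m : ℕ} (h : Both m) :
    m % e.1 ∉ K e (m % 5040) := by
  intro hx
  obtain ⟨t, ht, h1, h2⟩ := mem_K hx
  obtain ⟨hcop, he0, H⟩ := data_ok e he
  obtain ⟨g1, g2, g3, g4, g5, g6, g7, g8, g9⟩ := H t ht
  rw [Nat.mod_mod_of_dvd _ g6] at h1
  have hc : t.1.Coprime e.1 := (Nat.Coprime.coprime_dvd_right g6 hcop).symm
  have h3 : m ≡ t.2.2.2.2.1 [MOD t.1 * e.1] := by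
    rw [← Nat.modEq_and_modEq_iff_modEq_mul hc]
    exact ⟨by rw [Nat.ModEq, g8, h1], by rw [Nat.ModEq, g9, h2]⟩
  have h4 : m % (t.1 * e.1) = t.2.2.2.2.1 := by
    rw [Nat.ModEq, Nat.mod_eq_of_lt g7] at h3
    exact h3
  exact not_both g4 g5 g3 g1 g2 h4 (ge_seven h) h

/-- the killed set -/
def kk (e : ℕ × List (ℕ × ℕ × ℕ × ℕ × ℕ × ℕ)) (i : ℕ) : Finset ℕ := (K e i).toFinset

theorem kk_card (e : ℕ × List (ℕ × ℕ × ℕ × ℕ × ℕ × ℕ)) (i : ℕ) :
    (kk e i).card = (K e i).length :=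
  List.toFinset_card_of_nodup (List.nodup_dedup _)

theorem kk_sub {e : ℕ × List (ℕ × ℕ × ℕ × ℕ × ℕ × ℕ)} (he : e ∈ data) (i : ℕ) :
    kk e i ⊆ range e.1 := by
  intro x hx
  rw [kk, List.mem_toFinset] at hx
  obtain ⟨t, ht, _, h2⟩ := mem_K hx
  obtain ⟨hcop, he0, H⟩ := data_ok e he
  obtain ⟨g1, g2, g3, g4, g5, g6, g7, g8, g9⟩ := H t ht
  rw [h2, ← g9, mem_range]
  exact Nat.mod_lt _ he0

/-- indicator of the free classes -/
def w (i : ℕ) : ℕ := if free i then 1 else 0

theorem pw : (data.map Prod.fst).Pairwise Nat.Coprime := by decide +kernel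

/-- the summand -/
def F (m : ℕ) : ℕ := if ∀ e ∈ data, m % e.1 ∉ kk e (m % 5040) then w (m % 5040) else 0

theorem F_period : ∑ m ∈ range (5040 * PP), F m = ∑ i ∈ range 5040, w i * wt i := by
  have h := wsum 5040 (Prod.fst : ℕ × List (ℕ × ℕ × ℕ × ℕ × ℕ × ℕ) → ℕ) kk data
    (fun e he => ⟨(data_ok e he).2.1, (data_ok e he).1, kk_sub he⟩) pw w
  unfold F PP
  rw [h]
  apply Finset.sum_congr rfl
  intro i _
  unfold wt
  simp only [kk_card]

/-- summand of `cntW` -/
def G (i : ℕ) : ℕ := if i < 5040 then (if free i then wt i else 0) else 0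

theorem cntW_sum (k lo : ℕ) : cntW k lo = ∑ i ∈ Finset.Ico lo (lo + 2 ^ k), G i := by
  induction k generalizing lo with
  | zero => simp [cntW, G]
  | succ k ih =>
    rw [cntW, ih, ih, add_assoc, ← mul_two, ← pow_succ]
    exact Finset.sum_Ico_consecutive G (Nat.le_add_right _ _)
      (Nat.add_le_add_left (Nat.pow_le_pow_right (by norm_num) (Nat.le_succ k)) lo)

theorem F_sum : ∑ m ∈ range (5040 * PP), F m = cntW 13 0 := by
  rw [F_period, cntW_sum, zero_add, ← Finset.range_eq_Ico]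
  have h2 : ∑ i ∈ Finset.range 5040, G i = ∑ i ∈ Finset.range (2 ^ 13), G i := by
    apply Finset.sum_subset
    · intro i hi
      rw [Finset.mem_range] at *
      omega
    · intro i _ hi
      rw [Finset.mem_range] at hi
      simp [G, hi]
  rw [← h2]
  apply Finset.sum_congr rfl
  intro i hi
  rw [Finset.mem_range] at hi
  unfold G w
  rw [if_pos hi]
  split_ifs <;> simp

theorem F_add (s m : ℕ) : F (5040 * PP * s + m) = F m := by
  have hQm : (5040 * PP * s + m) % 5040 = m % 5040 := by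
    rw [mul_assoc, Nat.mul_add_mod]
  have hem : ∀ e ∈ data, (5040 * PP * s + m) % e.1 = m % e.1 := by
    intro e he
    have hd : e.1 ∣ 5040 * PP := Dvd.dvd.mul_left (List.dvd_prod (List.mem_map_of_mem he)) _
    obtain ⟨c, hc⟩ := hd
    rw [hc, mul_assoc, Nat.mul_add_mod]
  unfold F
  rw [hQm]
  congr 1
  rw [eq_iff_iff]
  constructor
  · exact fun h e he => by rw [← hem e he]; exact h e he
  · exact fun h e he => by rw [hem e he]; exact h e he

theorem F_total (q : ℕ) : ∑ m ∈ range (5040 * PP * q), F m = cntW 13 0 * q := by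
  rw [sum_split]
  simp only [F_add, Finset.sum_const, card_range, smul_eq_mul]
  rw [← Finset.mul_sum, F_sum, mul_comm]

theorem F_of_both {m : ℕ} (h : Both m) : F m = 1 := by
  unfold F
  rw [if_pos, w, if_pos (free_of_both h)]
  intro e he hx
  rw [kk, List.mem_toFinset] at hx
  exact notMem_K he h hx

open Classical in
theorem both_card_le (N : ℕ) :
    ((Finset.range N).filter Both).card ≤ cntW 13 0 * (N / (5040 * PP) + 1) := by
  rw [← F_total, Finset.card_filter]
  have hM : 0 < 5040 * PP := by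
    have := cntW_eval.1
    rcases Nat.eq_zero_or_pos (5040 * PP) with h | h
    · exfalso
      unfold PP at h
      rcases Nat.mul_eq_zero.1 h with h | h
      · omega
      · rw [List.prod_eq_zero_iff] at h
        rw [List.mem_map] at h
        obtain ⟨e, he, h0⟩ := h
        have := (data_ok e he).2.1
        omega
    · exact h
  have hsub : range N ⊆ range (5040 * PP * (N / (5040 * PP) + 1)) := by
    intro m hm
    rw [mem_range] at *
    have := Nat.div_add_mod N (5040 * PP)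
    have := Nat.mod_lt N hM
    rw [mul_add, mul_one]
    omega
  refine le_trans (Finset.sum_le_sum ?_) (Finset.sum_le_sum_of_subset hsub)
  intro m _
  by_cases h : Both m
  · rw [if_pos h, F_of_both h]
  · rw [if_neg h]
    exact Nat.zero_le _

open Classical in
theorem both_card_fine (N : ℕ) :
    (((Finset.range N).filter Both).card : ℝ) ≤ 3 / 20 * (N : ℝ) + 10 ^ 39 := by
  have h1 := both_card_le N
  obtain ⟨h2, h3⟩ := cntW_eval
  set W := cntW 13 0 with hW
  set M := 5040 * PP with hM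
  have h4 : M * (N / M) ≤ N := Nat.mul_div_le N M
  have h5 : 20 * (W * (N / M + 1)) ≤ 3 * N + 20 * 10 ^ 39 := by
    calc 20 * (W * (N / M + 1)) = (20 * W) * (N / M) + 20 * W := by ring
      _ ≤ (3 * M) * (N / M) + 20 * 10 ^ 39 :=
        Nat.add_le_add (Nat.mul_le_mul_right _ h2) (Nat.mul_le_mul_left _ h3)
      _ = 3 * (M * (N / M)) + 20 * 10 ^ 39 := by ring
      _ ≤ 3 * N + 20 * 10 ^ 39 := Nat.add_le_add_right (Nat.mul_le_mul_left _ h4) _
  have h6 : 20 * ((Finset.range N).filter Both).card ≤ 3 * N + 20 * 10 ^ 39 :=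
    le_trans (Nat.mul_le_mul_left _ h1) h5
  have h7 : (20 : ℝ) * (((Finset.range N).filter Both).card : ℝ) ≤ 3 * (N : ℝ) + 20 * 10 ^ 39 := by
    exact_mod_cast h6
  linarith

end Pool.Agent.Lib.MP_0549f6_nt.Fine
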