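import Pool.Agent.Lib.MP_0549f6_nt.FineBlk1
import Pool.Agent.Lib.MP_0549f6_nt.FineBlk2
import Pool.Agent.Lib.MP_0549f6_nt.FineBlk3
import Pool.Agent.Lib.MP_0549f6_nt.FineBlk4

set_option autoImplicit false

namespace Pool.Agent.Lib.MP_0549f6_nt.Fine

theorem step {k k' lo lo' a b c : ℕ} (hk : k + 1 = k') (hlo : lo + 2 ^ k = lo')
    (h1 : cntW k lo = a) (h2 : cntW k lo' = b) (hc : a + b = c) : cntW k' lo = c := by
  subst hk
  rw [cntW_succ, hlo, h1, h2, hc]

theorem fin_aux {W P : ℕ} (h1 : cntW 13 0 = W) (h2 : PP = P) (h3 : 20 * W ≤ 3 * (5040 * P))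
    (h4 : W ≤ 10 ^ 39) : 20 * cntW 13 0 ≤ 3 * (5040 * PP) ∧ cntW 13 0 ≤ 10 ^ 39 := by
  subst h1 h2
  exact ⟨h3, h4⟩

theorem blk5120 : cntW 10 5120 = 0 := by decide +kernel

theorem blk6144 : cntW 11 6144 = 0 := by decide +kernel

theorem s9_0 : cntW 9 0 =
    86262823855956569593436239780286438400 :=
  step (k := 8) (lo' := 256) (by norm_num) (by norm_num) blk0 blk256 (by norm_num)

theorem s9_512 : cntW 9 512 =
    82960329412077573258648595375317433344 :=
  step (k := 8) (lo' := 768) (by norm_num) (by norm_num) blk512 blk768 (by norm_num)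

theorem s10_0 : cntW 10 0 =
    169223153268034142852084835155603871744 :=
  step (k := 9) (lo' := 512) (by norm_num) (by norm_num) s9_0 s9_512 (by norm_num)

theorem s9_1024 : cntW 9 1024 =
    85597518034863703036190298822517756800 :=
  step (k := 8) (lo' := 1280) (by norm_num) (by norm_num) blk1024 blk1280 (by norm_num)

theorem s9_1536 : cntW 9 1536 =
    85842944001792487615376525815787189760 :=
  step (k := 8) (lo' := 1792) (by norm_num) (by norm_num) blk1536 blk1792 (by norm_num)

theorem s10_1024 : cntW 10 1024 =
    171440462036656190651566824638304946560 :=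
  step (k := 9) (lo' := 1536) (by norm_num) (by norm_num) s9_1024 s9_1536 (by norm_num)

theorem s11_0 : cntW 11 0 =
    340663615304690333503651659793908818304 :=
  step (k := 10) (lo' := 1024) (by norm_num) (by norm_num) s10_0 s10_1024 (by norm_num)

theorem s9_2048 : cntW 9 2048 =
    84099341679574940067103340979423398400 :=
  step (k := 8) (lo' := 2304) (by norm_num) (by norm_num) blk2048 blk2304 (by norm_num)

theorem s9_2560 : cntW 9 2560 =
    85963022169726849552138984959398585536 :=
  step (k := 8) (lo' := 2816) (by norm_num) (by norm_num) blk2560 blk2816 (by norm_num)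

theorem s10_2048 : cntW 10 2048 =
    170062363849301789619242325938821983936 :=
  step (k := 9) (lo' := 2560) (by norm_num) (by norm_num) s9_2048 s9_2560 (by norm_num)

theorem s9_3072 : cntW 9 3072 =
    85497943792791402964868535644178769920 :=
  step (k := 8) (lo' := 3328) (by norm_num) (by norm_num) blk3072 blk3328 (by norm_num)

theorem s9_3584 : cntW 9 3584 =
    83924443423025931064335968858088094080 :=
  step (k := 8) (lo' := 3840) (by norm_num) (by norm_num) blk3584 blk3840 (by norm_num)

theorem s10_3072 : cntW 10 3072 =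
    169422387215817334029204504502266864000 :=
  step (k := 9) (lo' := 3584) (by norm_num) (by norm_num) s9_3072 s9_3584 (by norm_num)

theorem s11_2048 : cntW 11 2048 =
    339484751065119123648446830441088847936 :=
  step (k := 10) (lo' := 3072) (by norm_num) (by norm_num) s10_2048 s10_3072 (by norm_num)

theorem s12_0 : cntW 12 0 =
    680148366369809457152098490234997666240 :=
  step (k := 11) (lo' := 2048) (by norm_num) (by norm_num) s11_0 s11_2048 (by norm_num)

theorem s9_4096 : cntW 9 4096 =
    85628564193449524416439373184958548480 :=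
  step (k := 8) (lo' := 4352) (by norm_num) (by norm_num) blk4096 blk4352 (by norm_num)

theorem s9_4608 : cntW 9 4608 =
    71925977755178524606933844549395320960 :=
  step (k := 8) (lo' := 4864) (by norm_num) (by norm_num) blk4608 blk4864 (by norm_num)

theorem s10_4096 : cntW 10 4096 =
    157554541948628049023373217734353869440 :=
  step (k := 9) (lo' := 4608) (by norm_num) (by norm_num) s9_4096 s9_4608 (by norm_num)

theorem s11_4096 : cntW 11 4096 =
    157554541948628049023373217734353869440 :=
  step (k := 10) (lo' := 5120) (by norm_num) (by norm_num) s10_4096 blk5120 (by norm_num)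

theorem s12_4096 : cntW 12 4096 =
    157554541948628049023373217734353869440 :=
  step (k := 11) (lo' := 6144) (by norm_num) (by norm_num) s11_4096 blk6144 (by norm_num)

theorem s13_0 : cntW 13 0 =
    837702908318437506175471707969351535680 :=
  step (k := 12) (lo' := 4096) (by norm_num) (by norm_num) s12_0 s12_4096 (by norm_num)

theorem PP_eval : PP =
    1108868401707130290000301508954796967 := by
  decide +kernel

theorem cntW_eval : 20 * cntW 13 0 ≤ 3 * (5040 * PP) ∧ cntW 13 0 ≤ 10 ^ 39 :=
  fin_aux s13_0 PP_eval (by norm_num) (by norm_num)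

end Pool.Agent.Lib.MP_0549f6_nt.Fine
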