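import Pool.Agent.Lib.MP_0549f6_nt.Cover

set_option autoImplicit false

namespace Pool.Agent.Lib.MP_0549f6_nt

/-- summand of `cnt` -/
def f (i : ℕ) : ℕ := if i < 55440 then (if cov i then 0 else 1) else 0

theorem cnt_sum (k lo : ℕ) : cnt k lo = ∑ i ∈ Finset.Ico lo (lo + 2 ^ k), f i := by
  induction k generalizing lo with
  | zero => simp [cnt, f]
  | succ k ih =>
    rw [cnt, ih, ih, add_assoc, ← mul_two, ← pow_succ]
    exact Finset.sum_Ico_consecutive f (Nat.le_add_right _ _)
      (Nat.add_le_add_left (Nat.pow_le_pow_right (by norm_num) (Nat.le_succ k)) lo)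

theorem surv_card : ((Finset.range 55440).filter (fun i => cov i = false)).card = 14400 := by
  have h := cnt_eval
  rw [cnt_sum, zero_add, ← Finset.range_eq_Ico] at h
  have h2 : ∑ i ∈ Finset.range 55440, f i = ∑ i ∈ Finset.range (2 ^ 16), f i := by
    apply Finset.sum_subset
    · intro i hi
      rw [Finset.mem_range] at *
      omega
    · intro i _ hi
      rw [Finset.mem_range] at hi
      simp [f, hi]
  rw [Finset.card_filter, ← h, ← h2]
  apply Finset.sum_congr rfl
  intro i hi
  rw [Finset.mem_range] at hi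
  unfold f
  rw [if_pos hi]
  cases cov i <;> simp

theorem kill {p d r c m : ℕ} (hp : 1 < p) (hd : 10 ^ d % p = 1) (hr : 5 * 10 ^ r % p = c)
    (hm : m % d = r) (hlt : p + c < 5 * 10 ^ m) : ¬ (5 * 10 ^ m - c).Prime := by
  have h1 : 5 * 10 ^ m ≡ c [MOD p] := by
    have e : m = d * (m / d) + r := by rw [← hm]; exact (Nat.div_add_mod m d).symm
    have h2 : 10 ^ d ≡ 1 [MOD p] := by
      rw [Nat.ModEq, hd, Nat.mod_eq_of_lt hp]
    have h3 : 10 ^ (d * (m / d)) ≡ 1 [MOD p] := by
      rw [pow_mul]
      simpa using h2.pow (m / d)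
    calc 5 * 10 ^ m = 5 * (10 ^ (d * (m / d)) * 10 ^ r) := by rw [← pow_add, ← e]
      _ ≡ 5 * (1 * 10 ^ r) [MOD p] := (h3.mul_right _).mul_left _
      _ = 5 * 10 ^ r := by rw [one_mul]
      _ ≡ c [MOD p] := by rw [← hr]; exact (Nat.mod_modEq _ _).symm
  have h2 : p ∣ 5 * 10 ^ m - c := (Nat.modEq_iff_dvd' (by omega)).1 h1.symm
  intro h3
  rcases (Nat.dvd_prime h3).1 h2 with h4 | h4
  · omega
  · omega

/-- Both numbers are prime. -/
def Both (m : ℕ) : Prop := (5 * 10 ^ m - 1).Prime ∧ (5 * 10 ^ m - 3).Prime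

theorem small {m : ℕ} (hm : m < 7) : ¬ Both m := by
  unfold Both
  interval_cases m <;> norm_num

theorem cov_of_both {m : ℕ} (h : Both m) : cov (m % 55440) = false := by
  rcases Nat.lt_or_ge m 7 with h7 | h7
  · exact absurd h (small h7)
  · by_contra hc
    rw [Bool.not_eq_false, cov_eq, List.any_eq_true] at hc
    obtain ⟨t, ht, ht2⟩ := hc
    obtain ⟨h1, h2, h3, h4, h5, h6⟩ := cls_ok t ht
    rw [beq_iff_eq, Nat.mod_mod_of_dvd _ h6] at ht2
    have hpow : 10 ^ 7 ≤ 10 ^ m := Nat.pow_le_pow_right (by norm_num) h7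
    have h8 : t.1 + t.2.2.2 < 5 * 10 ^ m := by
      have h9 : (10 : ℕ) ^ 4 = 10000 := by norm_num
      have h10 : (10 : ℕ) ^ 7 = 10000000 := by norm_num
      rcases h3 with h3 | h3 <;> omega
    have h11 := kill h4 h1 h2 ht2 h8
    rcases h3 with h3 | h3
    · rw [h3] at h11
      exact h11 h.1
    · rw [h3] at h11
      exact h11 h.2

theorem periodic_card (q : ℕ) :
    ((Finset.range (55440 * q)).filter (fun m => cov (m % 55440) = false)).card = 14400 * q := by
  induction q with
  | zero => simp
  | succ q ih =>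
    have e : Finset.range (55440 * (q + 1)) =
        Finset.range (55440 * q) ∪ Finset.Ico (55440 * q) (55440 * q + 55440) := by
      rw [Finset.range_eq_Ico, Finset.range_eq_Ico, Finset.Ico_union_Ico_eq_Ico (by omega) (by omega)]
      rfl
    rw [e, Finset.filter_union, Finset.card_union_of_disjoint, ih,
      Nat.filter_Ico_card_eq_of_periodic, Nat.count_eq_card_filter_range]
    · have : (Finset.range 55440).filter (fun m => cov (m % 55440) = false) =
          (Finset.range 55440).filter (fun i => cov i = false) := by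
        apply Finset.filter_congr
        intro i hi
        rw [Finset.mem_range] at hi
        rw [Nat.mod_eq_of_lt hi]
      rw [this, surv_card]
      ring
    · intro m
      simp
    · apply Finset.disjoint_filter_filter
      rw [Finset.disjoint_left]
      intro m h1 h2
      rw [Finset.mem_range] at h1
      rw [Finset.mem_Ico] at h2
      omega

open Classical in
theorem both_card (N : ℕ) :
    ((Finset.range N).filter Both).card ≤ 14400 * (N / 55440 + 1) := by
  rw [← periodic_card]
  apply Finset.card_le_card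
  intro m hm
  rw [Finset.mem_filter, Finset.mem_range] at *
  refine ⟨?_, cov_of_both hm.2⟩
  have := Nat.div_add_mod N 55440
  have := Nat.mod_lt N (show 0 < 55440 by norm_num)
  omega

end Pool.Agent.Lib.MP_0549f6_nt
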