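import Mathlib

set_option autoImplicit false

namespace Pool.Agent.Lib.MP_0549f6_nt

/-- The function `v` of the problem: the sum over the primes `p` dividing `n` of `p` if `p`
divides `n` to the first power, and of `p + e` if `p` has exponent `e ≥ 2` in `n`. -/
def v (n : ℕ) : ℕ :=
  ∑ p ∈ n.primeFactors, if n.factorization p = 1 then p else p + n.factorization p

/-- The digit reversal in base ten. -/
def rev (n : ℕ) : ℕ := Nat.ofDigits 10 (Nat.digits 10 n).reverse

/-- `n` is a `v`-palindrome in base ten. -/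
def IsVPalindrome (n : ℕ) : Prop := ¬ 10 ∣ n ∧ n ≠ rev n ∧ v n = v (rev n)

theorem v_prime {p : ℕ} (hp : p.Prime) : v p = p := by
  rw [v, hp.primeFactors, Finset.sum_singleton, hp.factorization_self, if_pos rfl]

theorem v_one : v 1 = 0 := by simp [v]

theorem v_pow {p e : ℕ} (hp : p.Prime) (he : 2 ≤ e) : v (p ^ e) = p + e := by
  rw [v, Nat.primeFactors_prime_pow (by omega) hp, Finset.sum_singleton,
    hp.factorization_pow, Finsupp.single_eq_same, if_neg (by omega)]

theorem v_mul {a b : ℕ} (h : a.Coprime b) : v (a * b) = v a + v b := by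
  unfold v
  rw [h.primeFactors_mul, Finset.sum_union h.disjoint_primeFactors]
  congr 1
  · apply Finset.sum_congr rfl
    intro p hp
    rw [Nat.factorization_eq_of_coprime_left h
      (Nat.mem_primeFactorsList' .. |>.2 (Nat.mem_primeFactors.1 hp))]
  · apply Finset.sum_congr rfl
    intro p hp
    rw [Nat.factorization_eq_of_coprime_right h
      (Nat.mem_primeFactorsList' .. |>.2 (Nat.mem_primeFactors.1 hp))]

theorem add_le_pow {p e : ℕ} (hp : 2 ≤ p) (he : 2 ≤ e) : p + e ≤ p ^ e := by
  induction e, he using Nat.le_induction with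
  | base => nlinarith
  | succ e he ih =>
    have : p ^ (e + 1) = p * p ^ e := by ring
    nlinarith

theorem term_le {p e : ℕ} (hp : 2 ≤ p) (he : 1 ≤ e) : (if e = 1 then p else p + e) ≤ p ^ e := by
  split_ifs with h
  · rw [h, pow_one]
  · exact add_le_pow hp (by omega)

theorem v_le {n : ℕ} (hn : 1 ≤ n) : v n ≤ n := by
  induction n using Nat.recOnPosPrimePosCoprime with
  | zero => omega
  | one => simp [v_one]
  | prime_pow p e hp he =>
    rcases Nat.lt_or_ge e 2 with h | h
    · have : e = 1 := by omega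
      rw [this, pow_one, v_prime hp]
    · rw [v_pow hp h]
      exact add_le_pow hp.two_le h
  | coprime a b ha hb hab iha ihb =>
    rw [v_mul hab]
    have h1 := iha (by omega)
    have h2 := ihb (by omega)
    nlinarith

theorem pow_bound {p e : ℕ} (hp : 2 ≤ p) (he : 2 ≤ e) : 11 * (p + e) ≤ p ^ e + 220 := by
  rcases Nat.lt_or_ge p 3 with h | h
  · have : p = 2 := by omega
    subst this
    rcases Nat.lt_or_ge e 18 with h2 | h2
    · have h0 : 11 * (2 + e) ≤ 220 := by omega
      exact h0.trans (Nat.le_add_left _ _)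
    · induction e, h2 using Nat.le_induction with
      | base => norm_num
      | succ e he2 ih =>
        have h3 := ih (by omega)
        have h4 : (2 : ℕ) ^ (e + 1) = 2 * 2 ^ e := by ring
        have h5 : (2 : ℕ) ^ 4 ≤ 2 ^ e := Nat.pow_le_pow_right (by norm_num) (by omega)
        omega
  · induction e, he using Nat.le_induction with
    | base =>
      have : (p : ℤ) ^ 2 + 220 - 11 * (p + 2) ≥ 0 := by nlinarith [sq_nonneg ((p : ℤ) - 6)]
      zify
      linarith
    | succ e he ih =>
      have h3 : p ^ (e + 1) = p * p ^ e := by ring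
      have h4 : 9 ≤ p ^ e := by
        calc 9 = 3 ^ 2 := by norm_num
          _ ≤ p ^ 2 := Nat.pow_le_pow_left h 2
          _ ≤ p ^ e := Nat.pow_le_pow_right (by omega) he
      nlinarith

/-- If `q < 10 M`, `M ≤ v q`, `M ≥ 1000`, `10 ∤ q` and `q` is not prime, then `q = b r` with a prime
`r` and `2 ≤ b ≤ 9`, and `v q = r + v b`. -/
theorem structure_q {q M : ℕ} (hM : 1000 ≤ M) (h1 : M ≤ v q) (h2 : q < 10 * M) (h3 : ¬ 10 ∣ q)
    (h4 : ¬ q.Prime) : ∃ b r : ℕ, 2 ≤ b ∧ b ≤ 9 ∧ r.Prime ∧ q = b * r ∧ v q = r + v b := by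
  have hq0 : q ≠ 0 := by
    rintro rfl
    simp at h3
  have hex : ∃ r ∈ q.primeFactors, 11 ≤ r ^ q.factorization r := by
    by_contra hcon
    push Not at hcon
    have h5 : ∀ r ∈ q.primeFactors,
        (if q.factorization r = 1 then r else r + q.factorization r) ≤ 10 := by
      intro r hr
      have h6 := hcon r hr
      have hrp := Nat.prime_of_mem_primeFactors hr
      have h7 : 1 ≤ q.factorization r :=
        hrp.factorization_pos_of_dvd hq0 (Nat.dvd_of_mem_primeFactors hr)
      have h8 := term_le hrp.two_le h7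
      omega
    have h6 : q.primeFactors ⊆ Finset.range 11 := by
      intro r hr
      have h6 := hcon r hr
      have hrp := Nat.prime_of_mem_primeFactors hr
      have h7 : 1 ≤ q.factorization r :=
        hrp.factorization_pos_of_dvd hq0 (Nat.dvd_of_mem_primeFactors hr)
      have h8 : r ^ 1 ≤ r ^ q.factorization r := Nat.pow_le_pow_right hrp.pos h7
      rw [pow_one] at h8
      rw [Finset.mem_range]
      omega
    have h7 := Finset.sum_le_card_nsmul _ _ 10 h5
    have h8 := Finset.card_le_card h6
    rw [Finset.card_range] at h8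
    have h9 : v q ≤ q.primeFactors.card • 10 := h7
    rw [smul_eq_mul] at h9
    omega
  obtain ⟨r, hr, hC⟩ := hex
  have hrp := Nat.prime_of_mem_primeFactors hr
  set e := q.factorization r with he
  have he1 : 1 ≤ e := hrp.factorization_pos_of_dvd hq0 (Nat.dvd_of_mem_primeFactors hr)
  set b := q / r ^ e with hb
  have hqe : r ^ e * b = q := Nat.ordProj_mul_ordCompl_eq_self q r
  have hcop : (r ^ e).Coprime b := (Nat.coprime_ordCompl hrp hq0).pow_left e
  have hb0 : 1 ≤ b := by
    rcases Nat.eq_zero_or_pos b with h | h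
    · rw [h, mul_zero] at hqe
      exact absurd hqe.symm hq0
    · exact h
  have hv : v q = v (r ^ e) + v b := by rw [← hqe, v_mul hcop]
  have hvb := v_le hb0
  have hvC := v_le (show 1 ≤ r ^ e by omega)
  have hb10 : b ≤ 10 := by
    by_contra hcon
    have : 11 ≤ b := by omega
    nlinarith
  have he2 : e = 1 := by
    by_contra hcon
    have h5 : 2 ≤ e := by omega
    have h6 := v_pow hrp h5
    have h7 := pow_bound hrp.two_le h5
    have h8 : r ^ e ≤ q := by rw [← hqe]; exact Nat.le_mul_of_pos_right _ hb0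
    omega
  rw [he2, pow_one] at hqe hv hC
  have hb1 : b ≠ 1 := by
    intro h
    rw [h, mul_one] at hqe
    rw [hqe] at hrp
    exact h4 hrp
  have hb2 : b ≠ 10 := by
    intro h
    apply h3
    rw [← hqe, h]
    exact Dvd.intro_left r rfl
  refine ⟨b, r, by omega, by omega, hrp, by rw [← hqe, mul_comm], by rw [hv, v_prime hrp]⟩

end Pool.Agent.Lib.MP_0549f6_nt
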